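import Mathlib

set_option autoImplicit false

open Matrix

namespace Pool.Agent.Lib_helper10.GOL

variable {ι : Type} [Fintype ι] [DecidableEq ι]

theorem contr_of_orth {κ : Type} [Fintype κ] [DecidableEq κ] {A : Matrix κ κ ℝ}
    (h : Aᵀ * A = 1) (v : κ → ℝ) : ∑ a, (A *ᵥ v) a ^ 2 ≤ ∑ a, v a ^ 2 := by
  have e1 : ∀ w : κ → ℝ, ∑ a, w a ^ 2 = w ⬝ᵥ w := by
    intro w
    rw [dotProduct]
    exact Finset.sum_congr rfl fun a _ => pow_two _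
  rw [e1, e1, Matrix.dotProduct_mulVec, ← Matrix.mulVec_transpose, Matrix.mulVec_mulVec, h,
    Matrix.one_mulVec]

theorem orth_blocks {U : Matrix ι ι ℝ} {X Y : Matrix ι (Fin 2) ℝ} (hU : Uᵀ * U = 1)
    (hY : Yᵀ * Y = 1) (hXY : U * Y = X) {s : ℝ} (hs : s ^ 2 = 3 / 4) :
    (Matrix.fromBlocks (U - (1 / 2 : ℝ) • (X * Yᵀ)) (s • X) (s • Yᵀ)
      (-((1 / 2 : ℝ) • (1 : Matrix (Fin 2) (Fin 2) ℝ))))ᵀ *
    (Matrix.fromBlocks (U - (1 / 2 : ℝ) • (X * Yᵀ)) (s • X) (s • Yᵀ)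
      (-((1 / 2 : ℝ) • (1 : Matrix (Fin 2) (Fin 2) ℝ)))) = 1 := by
  have hUX : Uᵀ * X = Y := by rw [← hXY, ← Matrix.mul_assoc, hU, Matrix.one_mul]
  have hXU : Xᵀ * U = Yᵀ := by
    have := congrArg Matrix.transpose hUX
    rwa [Matrix.transpose_mul, Matrix.transpose_transpose] at this
  have hXX : Xᵀ * X = 1 := by
    conv_lhs => rw [← hXY, Matrix.transpose_mul]
    rw [Matrix.mul_assoc, ← Matrix.mul_assoc Uᵀ, hU, Matrix.one_mul, hY]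
  rw [Matrix.fromBlocks_transpose, Matrix.fromBlocks_multiply, ← Matrix.fromBlocks_one]
  have e1 : (U - (1 / 2 : ℝ) • (X * Yᵀ))ᵀ = Uᵀ - (1 / 2 : ℝ) • (Y * Xᵀ) := by
    rw [Matrix.transpose_sub, Matrix.transpose_smul, Matrix.transpose_mul,
      Matrix.transpose_transpose]
  have e2 : (s • Yᵀ)ᵀ = s • Y := by rw [Matrix.transpose_smul, Matrix.transpose_transpose]
  have e3 : (s • X)ᵀ = s • Xᵀ := by rw [Matrix.transpose_smul]
  have e4 : (-((1 / 2 : ℝ) • (1 : Matrix (Fin 2) (Fin 2) ℝ)))ᵀ =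
      -((1 / 2 : ℝ) • (1 : Matrix (Fin 2) (Fin 2) ℝ)) := by
    rw [Matrix.transpose_neg, Matrix.transpose_smul, Matrix.transpose_one]
  have f1 : Uᵀ * (X * Yᵀ) = Y * Yᵀ := by rw [← Matrix.mul_assoc, hUX]
  have f2 : Y * Xᵀ * U = Y * Yᵀ := by rw [Matrix.mul_assoc, hXU]
  have f3 : Y * Xᵀ * (X * Yᵀ) = Y * Yᵀ := by
    rw [Matrix.mul_assoc, ← Matrix.mul_assoc Xᵀ, hXX, Matrix.one_mul]
  have f4 : Y * Xᵀ * X = Y := by rw [Matrix.mul_assoc, hXX, Matrix.mul_one]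
  have f5 : Xᵀ * (X * Yᵀ) = Yᵀ := by rw [← Matrix.mul_assoc, hXX, Matrix.one_mul]
  rw [e1, e2, e3, e4]
  have g11 : (Uᵀ - (1 / 2 : ℝ) • (Y * Xᵀ)) * (U - (1 / 2 : ℝ) • (X * Yᵀ)) + s • Y * s • Yᵀ =
      1 := by
    rw [Matrix.sub_mul, Matrix.mul_sub, Matrix.mul_sub, Matrix.mul_smul, Matrix.smul_mul,
      Matrix.smul_mul, Matrix.mul_smul, Matrix.smul_mul, Matrix.mul_smul, hU, f1, f2, f3,
      smul_smul, smul_smul, ← pow_two s, hs]
    module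
  have g12 : (Uᵀ - (1 / 2 : ℝ) • (Y * Xᵀ)) * s • X +
      s • Y * -((1 / 2 : ℝ) • (1 : Matrix (Fin 2) (Fin 2) ℝ)) = 0 := by
    rw [Matrix.sub_mul, Matrix.mul_smul, Matrix.mul_smul, Matrix.smul_mul, hUX, f4,
      Matrix.mul_neg, Matrix.mul_smul, Matrix.smul_mul, Matrix.mul_one]
    module
  have g21 : s • Xᵀ * (U - (1 / 2 : ℝ) • (X * Yᵀ)) +
      -((1 / 2 : ℝ) • (1 : Matrix (Fin 2) (Fin 2) ℝ)) * s • Yᵀ = 0 := by
    rw [Matrix.mul_sub, Matrix.smul_mul, Matrix.smul_mul, Matrix.mul_smul, hXU, f5,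
      Matrix.neg_mul, Matrix.mul_smul, Matrix.smul_mul, Matrix.one_mul]
    module
  have g22 : s • Xᵀ * s • X + -((1 / 2 : ℝ) • (1 : Matrix (Fin 2) (Fin 2) ℝ)) *
      -((1 / 2 : ℝ) • (1 : Matrix (Fin 2) (Fin 2) ℝ)) = 1 := by
    rw [Matrix.smul_mul, Matrix.mul_smul, hXX, smul_smul, ← pow_two s, hs, neg_mul_neg,
      Matrix.smul_mul, Matrix.one_mul]
    module
  rw [g11, g12, g21, g22]

theorem orth_blocks2 {U : Matrix ι ι ℝ} {X' X Y : Matrix ι (Fin 2) ℝ} {R : Matrix (Fin 2) (Fin 2) ℝ}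
    (hU : Uᵀ * U = 1) (hY : Yᵀ * Y = 1) (hXY : U * Y = X') (hR : R * Rᵀ = 1) (hX : X' * Rᵀ = X)
    {s : ℝ} (hs : s ^ 2 = 3 / 4) :
    (Matrix.fromBlocks (U - (1 / 2 : ℝ) • (X' * Yᵀ)) (s • X) (s • Yᵀ)
      (-((1 / 2 : ℝ) • Rᵀ)))ᵀ *
    (Matrix.fromBlocks (U - (1 / 2 : ℝ) • (X' * Yᵀ)) (s • X) (s • Yᵀ)
      (-((1 / 2 : ℝ) • Rᵀ))) = 1 := by
  have h0 := orth_blocks hU hY hXY hs
  have e : (Matrix.fromBlocks (U - (1 / 2 : ℝ) • (X' * Yᵀ)) (s • X) (s • Yᵀ)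
      (-((1 / 2 : ℝ) • Rᵀ))) = (Matrix.fromBlocks (U - (1 / 2 : ℝ) • (X' * Yᵀ)) (s • X') (s • Yᵀ)
      (-((1 / 2 : ℝ) • (1 : Matrix (Fin 2) (Fin 2) ℝ)))) *
      (Matrix.fromBlocks (1 : Matrix ι ι ℝ) 0 0 Rᵀ) := by
    rw [Matrix.fromBlocks_multiply]
    congr 1
    · rw [Matrix.mul_one, Matrix.mul_zero, add_zero]
    · rw [Matrix.mul_zero, zero_add, Matrix.smul_mul, hX]
    · rw [Matrix.mul_one, Matrix.mul_zero, add_zero]
    · rw [Matrix.mul_zero, zero_add, Matrix.neg_mul, Matrix.smul_mul, Matrix.one_mul]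
  rw [e, Matrix.transpose_mul, Matrix.mul_assoc, ← Matrix.mul_assoc _ _ (Matrix.fromBlocks 1 0 0 Rᵀ),
    h0, Matrix.one_mul, Matrix.fromBlocks_transpose, Matrix.fromBlocks_multiply,
    ← Matrix.fromBlocks_one]
  congr 1
  · simp
  · simp
  · simp
  · simp [hR]

theorem ineq2 {N t : ℝ} (hN : 1 ≤ N) (ht : 0 < t) (h : t ^ 2 = N) :
    √(N + 1) < (t * (N + 2) + 3 / 4) / (N + 3 / 2) := by
  have h1 : 0 < N + 3 / 2 := by linarith
  rw [Real.sqrt_lt' (by positivity), div_pow, lt_div_iff₀ (by positivity)]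
  have ht1 : 1 ≤ t := by nlinarith
  have h2 : N + 2 ≤ t * (N + 2) := by nlinarith
  have e : (t * (N + 2) + 3 / 4) ^ 2 = N * (N + 2) ^ 2 + 3 / 2 * (t * (N + 2)) + 9 / 16 := by
    rw [← h]; ring
  rw [e]
  nlinarith

theorem core3 (N : ℕ) (hN : Fintype.card ι = N) (hN0 : 0 < N) (H : Matrix ι ι ℝ)
    (hH : ∀ a b, H a b = 1 ∨ H a b = -1) (hHH : H * Hᵀ = (N : ℝ) • (1 : Matrix ι ι ℝ))
    (x y : Fin 2 → ι → ℝ) (hx : ∀ k a, x k a = 1 ∨ x k a = -1)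
    (hy : ∀ k a, y k a = 1 ∨ y k a = -1) (g h : ℝ) (hgh : g ^ 2 + h ^ 2 = N)
    (hx0 : ∀ a, ∑ b, H a b * y 0 b = g * x 0 a + h * x 1 a)
    (hx1 : ∀ a, ∑ b, H a b * y 1 b = -h * x 0 a + g * x 1 a)
    (hort : ∑ a, y 0 a * y 1 a = 0) :
    ∃ (M A : Matrix (ι ⊕ Fin 2) (ι ⊕ Fin 2) ℝ) (u : ι ⊕ Fin 2 → ℝ),
      (∀ a b, M a b = 1 ∨ M a b = -1) ∧ (∀ v, ∑ a, (A *ᵥ v) a ^ 2 ≤ ∑ a, v a ^ 2) ∧
      ∑ a, u a ^ 2 = 1 ∧ √((N : ℝ) + 1) < ∑ a, ∑ b, u a * (M a b * A a b) * u b := by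
  have hNr : (1 : ℝ) ≤ N := by exact_mod_cast hN0
  have hNp : (0 : ℝ) < N := by linarith
  obtain ⟨t, ht⟩ : ∃ t : ℝ, t = √(N : ℝ) := ⟨_, rfl⟩
  have ht0 : 0 < t := by rw [ht]; exact Real.sqrt_pos.2 hNp
  have ht2 : t ^ 2 = N := by rw [ht]; exact Real.sq_sqrt hNp.le
  obtain ⟨s, hs0, hs⟩ : ∃ s : ℝ, 0 < s ∧ s ^ 2 = 3 / 4 :=
    ⟨√(3 / 4), Real.sqrt_pos.2 (by norm_num), Real.sq_sqrt (by norm_num)⟩
  obtain ⟨α, hα0, hα⟩ : ∃ α : ℝ, 0 < α ∧ α ^ 2 * (N + 3 / 2) = 1 := by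
    have h0 : (0 : ℝ) < ((N : ℝ) + 3 / 2)⁻¹ := by positivity
    refine ⟨√(((N : ℝ) + 3 / 2)⁻¹), Real.sqrt_pos.2 h0, ?_⟩
    rw [Real.sq_sqrt h0.le]
    field_simp
  have sq1 : ∀ z : ℝ, z = 1 ∨ z = -1 → z * z = 1 := by
    rintro z (h | h) <;> rw [h] <;> norm_num
  -- signs of g and h
  obtain ⟨sg, hsg, hsga⟩ : ∃ sg : ℝ, (sg = 1 ∨ sg = -1) ∧ sg * g = |g| := by
    rcases le_total 0 g with hg | hg
    · exact ⟨1, Or.inl rfl, by rw [abs_of_nonneg hg, one_mul]⟩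
    · exact ⟨-1, Or.inr rfl, by rw [abs_of_nonpos hg]; ring⟩
  obtain ⟨sh, hsh, hsha⟩ : ∃ sh : ℝ, (sh = 1 ∨ sh = -1) ∧ sh * h = |h| := by
    rcases le_total 0 h with hg | hg
    · exact ⟨1, Or.inl rfl, by rw [abs_of_nonneg hg, one_mul]⟩
    · exact ⟨-1, Or.inr rfl, by rw [abs_of_nonpos hg]; ring⟩
  have habs : t ≤ |g| + |h| := by
    have h1 : t ^ 2 ≤ (|g| + |h|) ^ 2 := by
      rw [ht2, ← hgh, ← sq_abs g, ← sq_abs h]
      nlinarith [abs_nonneg g, abs_nonneg h]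
    exact le_of_sq_le_sq h1 (by positivity)
  -- `U = H / t` is orthogonal
  set U : Matrix ι ι ℝ := t⁻¹ • H with hUdef
  have hUUt : U * Uᵀ = 1 := by
    rw [hUdef, Matrix.transpose_smul, Matrix.smul_mul, Matrix.mul_smul, hHH, smul_smul, smul_smul,
      ← ht2]
    have : t⁻¹ * t⁻¹ * t ^ 2 = 1 := by field_simp
    rw [this, one_smul]
  have hU : Uᵀ * U = 1 := mul_eq_one_comm.1 hUUt
  set Y : Matrix ι (Fin 2) ℝ := Matrix.of fun i k => t⁻¹ * y k i with hYdef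
  set X : Matrix ι (Fin 2) ℝ := Matrix.of fun i k => t⁻¹ * x k i with hXdef
  set R : Matrix (Fin 2) (Fin 2) ℝ := !![t⁻¹ * g, t⁻¹ * (-h); t⁻¹ * h, t⁻¹ * g] with hRdef
  have htt2 : t⁻¹ * t⁻¹ * (g ^ 2 + h ^ 2) = 1 := by rw [hgh, ← ht2]; field_simp
  have hR : R * Rᵀ = 1 := by
    rw [hRdef]
    ext k l
    fin_cases k <;> fin_cases l <;> simp [Matrix.mul_apply, Fin.sum_univ_two] <;>
      linarith [htt2]
  have hcard : ∀ z : ι → ℝ, (∀ a, z a = 1 ∨ z a = -1) → ∑ a, z a * z a = (N : ℝ) := by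
    intro z hz
    rw [Finset.sum_congr rfl fun a _ => sq1 _ (hz a)]
    simp [hN]
  have hY : Yᵀ * Y = 1 := by
    ext k l
    rw [Matrix.mul_apply]
    have e : ∀ i, Yᵀ k i * Y i l = t⁻¹ * t⁻¹ * (y k i * y l i) := by
      intro i
      rw [hYdef, Matrix.transpose_apply, Matrix.of_apply, Matrix.of_apply]; ring
    rw [Finset.sum_congr rfl fun i _ => e i, ← Finset.mul_sum]
    have hinv : t⁻¹ * t⁻¹ * (N : ℝ) = 1 := by rw [← ht2]; field_simp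
    have hort' : ∑ a, y 1 a * y 0 a = 0 := by
      rw [← hort]; exact Finset.sum_congr rfl fun a _ => mul_comm _ _
    fin_cases k <;> fin_cases l
    · show t⁻¹ * t⁻¹ * ∑ i, y 0 i * y 0 i = (1 : Matrix (Fin 2) (Fin 2) ℝ) 0 0
      rw [hcard _ (hy 0), hinv]; simp
    · show t⁻¹ * t⁻¹ * ∑ i, y 0 i * y 1 i = (1 : Matrix (Fin 2) (Fin 2) ℝ) 0 1
      rw [hort]; simp
    · show t⁻¹ * t⁻¹ * ∑ i, y 1 i * y 0 i = (1 : Matrix (Fin 2) (Fin 2) ℝ) 1 0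
      rw [hort']; simp
    · show t⁻¹ * t⁻¹ * ∑ i, y 1 i * y 1 i = (1 : Matrix (Fin 2) (Fin 2) ℝ) 1 1
      rw [hcard _ (hy 1), hinv]; simp
  have hUY : ∀ i k, (U * Y) i k = t⁻¹ * t⁻¹ * ∑ j, H i j * y k j := by
    intro i k
    rw [Matrix.mul_apply]
    have e : ∀ j, U i j * Y j k = t⁻¹ * t⁻¹ * (H i j * y k j) := by
      intro j
      rw [hUdef, hYdef, Matrix.smul_apply, Matrix.of_apply, smul_eq_mul]; ring
    rw [Finset.sum_congr rfl fun i _ => e i, ← Finset.mul_sum]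
  have hXR : (U * Y) * Rᵀ = X := by
    ext i k
    rw [Matrix.mul_apply, Fin.sum_univ_two, hUY, hUY, hx0, hx1]
    simp only [Matrix.transpose_apply]
    fin_cases k
    · show t⁻¹ * t⁻¹ * (g * x 0 i + h * x 1 i) * R 0 0 + t⁻¹ * t⁻¹ * (-h * x 0 i + g * x 1 i) * R 0 1
        = t⁻¹ * x 0 i
      have r0 : R 0 0 = t⁻¹ * g := by simp [hRdef]
      have r1 : R 0 1 = t⁻¹ * (-h) := by simp [hRdef]
      rw [r0, r1]
      linear_combination (t⁻¹ * x 0 i) * htt2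
    · show t⁻¹ * t⁻¹ * (g * x 0 i + h * x 1 i) * R 1 0 + t⁻¹ * t⁻¹ * (-h * x 0 i + g * x 1 i) * R 1 1
        = t⁻¹ * x 1 i
      have r0 : R 1 0 = t⁻¹ * h := by simp [hRdef]
      have r1 : R 1 1 = t⁻¹ * g := by simp [hRdef]
      rw [r0, r1]
      linear_combination (t⁻¹ * x 1 i) * htt2
  have horth := orth_blocks2 hU hY (rfl : U * Y = U * Y) hR hXR hs
  set A : Matrix (ι ⊕ Fin 2) (ι ⊕ Fin 2) ℝ :=
    Matrix.fromBlocks (U - (1 / 2 : ℝ) • ((U * Y) * Yᵀ)) (s • X) (s • Yᵀ)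
      (-((1 / 2 : ℝ) • Rᵀ)) with hA
  set D : Matrix (Fin 2) (Fin 2) ℝ := !![-sg, -sh; sh, -sg] with hDdef
  refine ⟨Matrix.fromBlocks H (Matrix.of fun i k => x k i) (Matrix.of fun k i => y k i)
    D, A, Sum.elim (fun _ => α) (fun _ => s * α), ?_,
    contr_of_orth horth, ?_, ?_⟩
  · rintro (a | a) (b | b)
    · exact hH a b
    · exact hx b a
    · exact hy a b
    · show D a b = 1 ∨ D a b = -1
      rw [hDdef]
      fin_cases a <;> fin_cases b <;> simp <;> rcases hsg with h | h <;> rcases hsh with h' | h' <;>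
        simp [h, h']
  · rw [Fintype.sum_sum_type]
    simp only [Sum.elim_inl, Sum.elim_inr, Finset.sum_const, Finset.card_univ, hN,
      Fintype.card_fin, nsmul_eq_mul]
    push_cast
    rw [mul_pow, hs]
    linarith [hα]
  · have hval : ∑ a, ∑ b, (Sum.elim (fun _ : ι => α) (fun _ : Fin 2 => s * α)) a *
        ((Matrix.fromBlocks H (Matrix.of fun i k => x k i) (Matrix.of fun k i => y k i)
          D) a b * A a b) *
        (Sum.elim (fun _ : ι => α) (fun _ : Fin 2 => s * α)) b =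
        α ^ 2 * (t * (N + 2) + 3 / 4 * (t⁻¹ * (|g| + |h|))) := by
      rw [Fintype.sum_sum_type]
      simp only [Fintype.sum_sum_type, Sum.elim_inl, Sum.elim_inr, Matrix.fromBlocks_apply₁₁,
        Matrix.fromBlocks_apply₁₂, Matrix.fromBlocks_apply₂₁, Matrix.fromBlocks_apply₂₂, hA,
        Matrix.of_apply]
      have k11 : ∀ i j, α * (H i j * (U - (1 / 2 : ℝ) • ((U * Y) * Yᵀ)) i j) * α =
          α ^ 2 * t⁻¹ - α ^ 2 * (1 / 2) * (t⁻¹ * t⁻¹ * t⁻¹) *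
            ((g * x 0 i + h * x 1 i) * (H i j * y 0 j) + (-h * x 0 i + g * x 1 i) * (H i j * y 1 j)) := by
        intro i j
        have h1 := sq1 _ (hH i j)
        have e1 : ((U * Y) * Yᵀ) i j = t⁻¹ * t⁻¹ * t⁻¹ * ((g * x 0 i + h * x 1 i) * y 0 j
            + (-h * x 0 i + g * x 1 i) * y 1 j) := by
          rw [Matrix.mul_apply, Fin.sum_univ_two, hUY, hUY, hx0, hx1, hYdef]
          simp only [Matrix.transpose_apply, Matrix.of_apply]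
          ring
        rw [Matrix.sub_apply, Matrix.smul_apply, e1, hUdef, Matrix.smul_apply, smul_eq_mul,
          smul_eq_mul]
        linear_combination α ^ 2 * t⁻¹ * h1
      have k12 : ∀ i (k : Fin 2), α * (x k i * (s • X) i k) * (s * α) =
          α ^ 2 * s ^ 2 * t⁻¹ := by
        intro i k
        have h1 := sq1 _ (hx k i)
        rw [Matrix.smul_apply, hXdef, Matrix.of_apply, smul_eq_mul]
        linear_combination α ^ 2 * s ^ 2 * t⁻¹ * h1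
      have k21 : ∀ (k : Fin 2) i, s * α * (y k i * (s • Yᵀ) k i) * α =
          α ^ 2 * s ^ 2 * t⁻¹ := by
        intro k i
        have h1 := sq1 _ (hy k i)
        rw [Matrix.smul_apply, hYdef, Matrix.transpose_apply, Matrix.of_apply, smul_eq_mul]
        linear_combination α ^ 2 * s ^ 2 * t⁻¹ * h1
      have k22 : ∑ k : Fin 2, ∑ l : Fin 2, s * α * (D k l * (-((1 / 2 : ℝ) • Rᵀ)) k l) * (s * α)
          = α ^ 2 * s ^ 2 * (t⁻¹ * (|g| + |h|)) := by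
        rw [hDdef, hRdef, ← hsga, ← hsha]
        simp [Fin.sum_univ_two]
        ring
      have hHy : ∑ i, ∑ j, ((g * x 0 i + h * x 1 i) * (H i j * y 0 j)
          + (-h * x 0 i + g * x 1 i) * (H i j * y 1 j)) = 2 * (t ^ 2 * N) := by
        have h2 : ∀ i, ∑ j, ((g * x 0 i + h * x 1 i) * (H i j * y 0 j)
          + (-h * x 0 i + g * x 1 i) * (H i j * y 1 j))
            = t ^ 2 * (x 0 i * x 0 i) + t ^ 2 * (x 1 i * x 1 i) := by
          intro i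
          rw [Finset.sum_add_distrib, ← Finset.mul_sum, ← Finset.mul_sum, hx0, hx1, ht2, ← hgh]
          ring
        rw [Finset.sum_congr rfl fun i _ => h2 i, Finset.sum_add_distrib, ← Finset.mul_sum,
          ← Finset.mul_sum, hcard _ (hx 0), hcard _ (hx 1)]
        ring
      simp only [k11, k12, k21]
      rw [Finset.sum_add_distrib, Finset.sum_add_distrib, k22]
      simp only [Finset.sum_sub_distrib, ← Finset.mul_sum, hHy,
        Finset.sum_const, Finset.card_univ, hN, Fintype.card_fin, nsmul_eq_mul]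
      have htN : t⁻¹ * (N : ℝ) = t := by rw [← ht2]; field_simp
      rw [hs]
      have e5 : (N : ℝ) = t ^ 2 := ht2.symm
      rw [e5]
      field_simp
      ring
    rw [hval]
    have h3 : α ^ 2 = 1 / ((N : ℝ) + 3 / 2) := by
      field_simp
      linarith
    have h4 : 1 ≤ t⁻¹ * (|g| + |h|) := by
      rw [inv_mul_eq_div, le_div_iff₀ ht0]; linarith
    have h5 : α ^ 2 * (t * (N + 2) + 3 / 4) ≤ α ^ 2 * (t * (N + 2) + 3 / 4 * (t⁻¹ * (|g| + |h|))) := by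
      apply mul_le_mul_of_nonneg_left _ (by positivity)
      linarith
    refine lt_of_lt_of_le ?_ h5
    rw [h3, one_div, inv_mul_eq_div]
    exact ineq2 hNr ht0 ht2

end Pool.Agent.Lib_helper10.GOL
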