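import Mathlib

set_option autoImplicit false

open Matrix

namespace Pool.Agent.Lib_helper10.GOL

/-- A Hadamard matrix of order `N` with a twisted pair: sign vectors `y 0 ⟂ y 1`, `x 0`, `x 1` and
reals `g`, `h` with `H y₀ = g x₀ + h x₁`, `H y₁ = -h x₀ + g x₁`. -/
def TwPair (N : ℕ) : Prop :=
  ∃ (ι : Type) (_ : Fintype ι) (_ : DecidableEq ι) (H : Matrix ι ι ℝ) (x y : Fin 2 → ι → ℝ)
    (g h : ℝ), Fintype.card ι = N ∧ (∀ a b, H a b = 1 ∨ H a b = -1) ∧
    H * Hᵀ = (N : ℝ) • (1 : Matrix ι ι ℝ) ∧ (∀ k a, x k a = 1 ∨ x k a = -1) ∧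
    (∀ k a, y k a = 1 ∨ y k a = -1) ∧ g ^ 2 + h ^ 2 = N ∧
    (∀ a, ∑ b, H a b * y 0 b = g * x 0 a + h * x 1 a) ∧
    (∀ a, ∑ b, H a b * y 1 b = -h * x 0 a + g * x 1 a) ∧ ∑ a, y 0 a * y 1 a = 0

theorem pm_mul {x y : ℝ} (hx : x = 1 ∨ x = -1) (hy : y = 1 ∨ y = -1) : x * y = 1 ∨ x * y = -1 := by
  rcases hx with rfl | rfl <;> rcases hy with rfl | rfl <;> norm_num

theorem pm_tw1 {a b c d : ℝ} (ha : a = 1 ∨ a = -1) (hb : b = 1 ∨ b = -1) (hc : c = 1 ∨ c = -1)
    (hd : d = 1 ∨ d = -1) :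
    (a * c - b * d - a * d - b * c) / 2 = 1 ∨ (a * c - b * d - a * d - b * c) / 2 = -1 := by
  rcases ha with rfl | rfl <;> rcases hb with rfl | rfl <;> rcases hc with rfl | rfl <;>
    rcases hd with rfl | rfl <;> norm_num

theorem pm_tw2 {a b c d : ℝ} (ha : a = 1 ∨ a = -1) (hb : b = 1 ∨ b = -1) (hc : c = 1 ∨ c = -1)
    (hd : d = 1 ∨ d = -1) :
    (a * c - b * d + a * d + b * c) / 2 = 1 ∨ (a * c - b * d + a * d + b * c) / 2 = -1 := by
  rcases ha with rfl | rfl <;> rcases hb with rfl | rfl <;> rcases hc with rfl | rfl <;>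
    rcases hd with rfl | rfl <;> norm_num

theorem orth_pm {a b c d : ℝ} (ha : a = 1 ∨ a = -1) (hb : b = 1 ∨ b = -1) (hc : c = 1 ∨ c = -1)
    (hd : d = 1 ∨ d = -1) :
    (a * c - b * d - a * d - b * c) / 2 * ((a * c - b * d + a * d + b * c) / 2)
      = -((a * b) * (c * d)) := by
  rcases ha with rfl | rfl <;> rcases hb with rfl | rfl <;> rcases hc with rfl | rfl <;>
    rcases hd with rfl | rfl <;> norm_num

theorem TwPair.mul {M N : ℕ} (hM : TwPair M) (hN : TwPair N) : TwPair (M * N) := by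
  obtain ⟨ι, i1, i2, H, x, y, g, h, hc, hH, hHH, hx, hy, hgh, e0, e1, ho⟩ := hM
  obtain ⟨κ, j1, j2, H', x', y', g', h', hc', hH', hHH', hx', hy', hgh', e0', e1', ho'⟩ := hN
  let X : Fin 2 → ι × κ → ℝ := ![
    fun a => (x 0 a.1 * x' 0 a.2 - x 1 a.1 * x' 1 a.2 - x 0 a.1 * x' 1 a.2 - x 1 a.1 * x' 0 a.2) / 2,
    fun a => (x 0 a.1 * x' 0 a.2 - x 1 a.1 * x' 1 a.2 + x 0 a.1 * x' 1 a.2 + x 1 a.1 * x' 0 a.2) / 2]
  let Y : Fin 2 → ι × κ → ℝ := ![
    fun a => (y 0 a.1 * y' 0 a.2 - y 1 a.1 * y' 1 a.2 - y 0 a.1 * y' 1 a.2 - y 1 a.1 * y' 0 a.2) / 2,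
    fun a => (y 0 a.1 * y' 0 a.2 - y 1 a.1 * y' 1 a.2 + y 0 a.1 * y' 1 a.2 + y 1 a.1 * y' 0 a.2) / 2]
  have key : ∀ (k l : Fin 2) (a : ι) (b : κ), ∑ c : ι, ∑ d : κ, (H a c * H' b d) * (y k c * y' l d)
      = (∑ c, H a c * y k c) * (∑ d, H' b d * y' l d) := by
    intro k l a b
    rw [Finset.sum_mul_sum]
    exact Finset.sum_congr rfl fun c _ => Finset.sum_congr rfl fun d _ => by ring
  refine ⟨ι × κ, inferInstance, inferInstance, Matrix.of fun a b => H a.1 b.1 * H' a.2 b.2, X, Y,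
    g * g' - h * h', g * h' + h * g', ?_, ?_, ?_, ?_, ?_, ?_, ?_, ?_, ?_⟩
  · rw [Fintype.card_prod, hc, hc']
  · intro a b; exact pm_mul (hH _ _) (hH' _ _)
  · ext a b
    have h1 : ∑ c : ι × κ, (H a.1 c.1 * H' a.2 c.2) * (H b.1 c.1 * H' b.2 c.2)
        = (∑ c, H a.1 c * H b.1 c) * (∑ d, H' a.2 d * H' b.2 d) := by
      rw [Fintype.sum_prod_type, Finset.sum_mul_sum]
      exact Finset.sum_congr rfl fun c _ => Finset.sum_congr rfl fun d _ => by ring
    have h2 := congrFun (congrFun hHH a.1) b.1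
    have h3 := congrFun (congrFun hHH' a.2) b.2
    rw [Matrix.mul_apply, Matrix.smul_apply, Matrix.one_apply, smul_eq_mul] at h2 h3
    simp only [Matrix.transpose_apply] at h2 h3
    rw [Matrix.mul_apply, Matrix.smul_apply, Matrix.one_apply, smul_eq_mul]
    change ∑ c : ι × κ, (H a.1 c.1 * H' a.2 c.2) * (H b.1 c.1 * H' b.2 c.2) = _
    rw [h1, h2, h3]
    by_cases h : a = b
    · subst h; simp
    · rw [if_neg h]
      by_cases h4 : a.1 = b.1
      · have h5 : a.2 ≠ b.2 := fun h5 => h (Prod.ext h4 h5)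
        rw [if_neg h5]; simp
      · rw [if_neg h4]; simp
  · intro k a
    fin_cases k
    · exact pm_tw1 (hx 0 _) (hx 1 _) (hx' 0 _) (hx' 1 _)
    · exact pm_tw2 (hx 0 _) (hx 1 _) (hx' 0 _) (hx' 1 _)
  · intro k a
    fin_cases k
    · exact pm_tw1 (hy 0 _) (hy 1 _) (hy' 0 _) (hy' 1 _)
    · exact pm_tw2 (hy 0 _) (hy 1 _) (hy' 0 _) (hy' 1 _)
  · push_cast
    rw [← hgh, ← hgh']; ring
  · intro a
    simp only [Matrix.of_apply]
    rw [Fintype.sum_prod_type]
    have h1 : ∑ c : ι, ∑ d : κ, (H a.1 c * H' a.2 d) * Y 0 (c, d)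
        = (∑ c : ι, ∑ d : κ, (H a.1 c * H' a.2 d) * (y 0 c * y' 0 d)
          - ∑ c : ι, ∑ d : κ, (H a.1 c * H' a.2 d) * (y 1 c * y' 1 d)
          - ∑ c : ι, ∑ d : κ, (H a.1 c * H' a.2 d) * (y 0 c * y' 1 d)
          - ∑ c : ι, ∑ d : κ, (H a.1 c * H' a.2 d) * (y 1 c * y' 0 d)) / 2 := by
      simp only [← Finset.sum_sub_distrib, Finset.sum_div]
      refine Finset.sum_congr rfl fun c _ => Finset.sum_congr rfl fun d _ => ?_
      change (H a.1 c * H' a.2 d) * ((y 0 c * y' 0 d - y 1 c * y' 1 d - y 0 c * y' 1 d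
        - y 1 c * y' 0 d) / 2) = _
      ring
    change ∑ c : ι, ∑ d : κ, (H a.1 c * H' a.2 d) * Y 0 (c, d) = _
    rw [h1, key, key, key, key, e0, e1, e0', e1']
    change _ = (g * g' - h * h') * ((x 0 a.1 * x' 0 a.2 - x 1 a.1 * x' 1 a.2 - x 0 a.1 * x' 1 a.2
      - x 1 a.1 * x' 0 a.2) / 2) + (g * h' + h * g') * ((x 0 a.1 * x' 0 a.2 - x 1 a.1 * x' 1 a.2
      + x 0 a.1 * x' 1 a.2 + x 1 a.1 * x' 0 a.2) / 2)
    ring
  · intro a
    simp only [Matrix.of_apply]
    rw [Fintype.sum_prod_type]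
    have h1 : ∑ c : ι, ∑ d : κ, (H a.1 c * H' a.2 d) * Y 1 (c, d)
        = (∑ c : ι, ∑ d : κ, (H a.1 c * H' a.2 d) * (y 0 c * y' 0 d)
          - ∑ c : ι, ∑ d : κ, (H a.1 c * H' a.2 d) * (y 1 c * y' 1 d)
          + ∑ c : ι, ∑ d : κ, (H a.1 c * H' a.2 d) * (y 0 c * y' 1 d)
          + ∑ c : ι, ∑ d : κ, (H a.1 c * H' a.2 d) * (y 1 c * y' 0 d)) / 2 := by
      simp only [← Finset.sum_sub_distrib, ← Finset.sum_add_distrib, Finset.sum_div]
      refine Finset.sum_congr rfl fun c _ => Finset.sum_congr rfl fun d _ => ?_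
      change (H a.1 c * H' a.2 d) * ((y 0 c * y' 0 d - y 1 c * y' 1 d + y 0 c * y' 1 d
        + y 1 c * y' 0 d) / 2) = _
      ring
    change ∑ c : ι, ∑ d : κ, (H a.1 c * H' a.2 d) * Y 1 (c, d) = _
    rw [h1, key, key, key, key, e0, e1, e0', e1']
    change _ = -(g * h' + h * g') * ((x 0 a.1 * x' 0 a.2 - x 1 a.1 * x' 1 a.2 - x 0 a.1 * x' 1 a.2
      - x 1 a.1 * x' 0 a.2) / 2) + (g * g' - h * h') * ((x 0 a.1 * x' 0 a.2 - x 1 a.1 * x' 1 a.2
      + x 0 a.1 * x' 1 a.2 + x 1 a.1 * x' 0 a.2) / 2)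
    ring
  · have h1 : ∀ a : ι × κ, Y 0 a * Y 1 a = -((y 0 a.1 * y 1 a.1) * (y' 0 a.2 * y' 1 a.2)) :=
      fun a => orth_pm (hy 0 _) (hy 1 _) (hy' 0 _) (hy' 1 _)
    rw [Finset.sum_congr rfl fun a _ => h1 a, Finset.sum_neg_distrib, Fintype.sum_prod_type]
    have h2 : ∑ c : ι, ∑ d : κ, (y 0 c * y 1 c) * (y' 0 d * y' 1 d)
        = (∑ c, y 0 c * y 1 c) * (∑ d, y' 0 d * y' 1 d) := by rw [Finset.sum_mul_sum]
    change -(∑ c : ι, ∑ d : κ, (y 0 c * y 1 c) * (y' 0 d * y' 1 d)) = 0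
    rw [h2, ho, zero_mul, neg_zero]

theorem twPair_two : TwPair 2 := by
  refine ⟨Fin 2, inferInstance, inferInstance, !![1, 1; 1, -1], ![![1, 1], ![1, -1]],
    ![![1, 1], ![-1, 1]], 1, 1, by simp, ?_, ?_, ?_, ?_, by norm_num, ?_, ?_, ?_⟩
  · intro a b; fin_cases a <;> fin_cases b <;> simp
  · ext a b; fin_cases a <;> fin_cases b <;> simp [Matrix.mul_apply, Fin.sum_univ_two] <;> norm_num
  · intro a b; fin_cases a <;> fin_cases b <;> simp
  · intro a b; fin_cases a <;> fin_cases b <;> simp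
  · intro a; fin_cases a <;> simp [Fin.sum_univ_two]
  · intro a; fin_cases a <;> simp [Fin.sum_univ_two]
  · simp [Fin.sum_univ_two]

/-- A periodic Golay pair of length `m`. -/
def PGolay (m : ℕ) [NeZero m] (a b : ZMod m → ℤ) : Prop :=
  (∀ i, a i = 1 ∨ a i = -1) ∧ (∀ i, b i = 1 ∨ b i = -1) ∧
    ∀ s : ZMod m, s ≠ 0 → ∑ i, (a i * a (i + s) + b i * b (i + s)) = 0

theorem pm_cast {z : ℤ} (h : z = 1 ∨ z = -1) : ((z : ℤ) : ℝ) = 1 ∨ ((z : ℤ) : ℝ) = -1 := by
  rcases h with rfl | rfl <;> norm_num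

theorem pgolay_twPair (m : ℕ) [NeZero m] (a b : ZMod m → ℤ) (h : PGolay m a b) :
    TwPair (2 * m) := by
  obtain ⟨ha, hb, hs⟩ := h
  set A : ℤ := ∑ i, a i with hA
  set B : ℤ := ∑ i, b i with hB
  have sq1 : ∀ {z : ℤ}, (z = 1 ∨ z = -1) → z * z = 1 := by
    rintro z (h | h) <;> rw [h] <;> norm_num
  have hcard : (∑ _i : ZMod m, (1 : ℤ)) = m := by simp
  -- autocorrelations
  have hP : ∀ s : ZMod m, ∑ i, (a i * a (i + s) + b i * b (i + s)) = if s = 0 then 2 * (m : ℤ) else 0 := by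
    intro s
    by_cases h0 : s = 0
    · subst h0
      rw [if_pos rfl]
      have : ∀ i, a i * a (i + 0) + b i * b (i + 0) = 2 * 1 := by
        intro i; rw [add_zero, sq1 (ha i), sq1 (hb i)]; norm_num
      rw [Finset.sum_congr rfl fun i _ => this i, ← Finset.mul_sum, hcard]
    · rw [if_neg h0]; exact hs s h0
  -- A^2 + B^2 = 2 m
  have hAB : A ^ 2 + B ^ 2 = 2 * m := by
    have h1 : ∑ s : ZMod m, ∑ i, (a i * a (i + s) + b i * b (i + s)) = 2 * m := by
      rw [Finset.sum_congr rfl fun s _ => hP s]; simp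
    rw [Finset.sum_comm] at h1
    have h2 : ∀ i, ∑ s : ZMod m, (a i * a (i + s) + b i * b (i + s)) = a i * A + b i * B := by
      intro i
      have h3 : ∑ s, a (i + s) = A := Equiv.sum_comp (Equiv.addLeft i) a
      have h4 : ∑ s, b (i + s) = B := Equiv.sum_comp (Equiv.addLeft i) b
      rw [Finset.sum_add_distrib, ← Finset.mul_sum, ← Finset.mul_sum, h3, h4]
    rw [Finset.sum_congr rfl fun i _ => h2 i, Finset.sum_add_distrib, ← Finset.sum_mul,
      ← Finset.sum_mul] at h1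
    rw [← h1]; ring
  -- the matrix over the integers
  let H : ZMod m ⊕ ZMod m → ZMod m ⊕ ZMod m → ℤ := fun i j =>
    match i, j with
    | Sum.inl i, Sum.inl j => a (j - i)
    | Sum.inl i, Sum.inr j => b (j - i)
    | Sum.inr i, Sum.inl j => - b (i - j)
    | Sum.inr i, Sum.inr j => a (i - j)
  have hHpm : ∀ i j, H i j = 1 ∨ H i j = -1 := by
    rintro (i | i) (j | j)
    · exact ha _
    · exact hb _
    · change - b (i - j) = 1 ∨ - b (i - j) = -1
      rcases hb (i - j) with h | h <;> rw [h] <;> norm_num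
    · exact ha _
  have hHH : ∀ i j, ∑ k, H i k * H j k = if i = j then 2 * (m : ℤ) else 0 := by
    rintro (i | i) (j | j)
    · rw [Fintype.sum_sum_type]
      change ∑ k, a (k - i) * a (k - j) + ∑ k, b (k - i) * b (k - j) = _
      rw [← Finset.sum_add_distrib]
      have h1 := hP (i - j)
      rw [← Equiv.sum_comp (Equiv.subRight i)] at h1
      have h2 : ∀ k : ZMod m, a ((Equiv.subRight i) k) * a ((Equiv.subRight i) k + (i - j))
          + b ((Equiv.subRight i) k) * b ((Equiv.subRight i) k + (i - j))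
          = a (k - i) * a (k - j) + b (k - i) * b (k - j) := by
        intro k
        simp only [Equiv.subRight_apply]
        have : k - i + (i - j) = k - j := by ring
        rw [this]
      rw [Finset.sum_congr rfl fun k _ => h2 k] at h1
      rw [h1]
      by_cases h : i = j
      · rw [if_pos (by rw [h, sub_self]), if_pos (by rw [h])]
      · rw [if_neg (sub_ne_zero.2 h), if_neg (fun h' => h (Sum.inl.inj h'))]
    · rw [Fintype.sum_sum_type, if_neg (by simp)]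
      change ∑ k, a (k - i) * (- b (j - k)) + ∑ k, b (k - i) * a (j - k) = 0
      have h1 : ∑ k, b (k - i) * a (j - k) = ∑ k, a (k - i) * b (j - k) := by
        rw [← Equiv.sum_comp (Equiv.subLeft (i + j))]
        refine Finset.sum_congr rfl fun k _ => ?_
        simp only [Equiv.subLeft_apply]
        have e1 : i + j - k - i = j - k := by ring
        have e2 : j - (i + j - k) = k - i := by ring
        rw [e1, e2]; ring
      rw [h1, ← Finset.sum_add_distrib]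
      exact Finset.sum_eq_zero fun k _ => by ring
    · rw [Fintype.sum_sum_type, if_neg (by simp)]
      change ∑ k, (- b (i - k)) * a (k - j) + ∑ k, a (i - k) * b (k - j) = 0
      have h1 : ∑ k, a (i - k) * b (k - j) = ∑ k, b (i - k) * a (k - j) := by
        rw [← Equiv.sum_comp (Equiv.subLeft (i + j))]
        refine Finset.sum_congr rfl fun k _ => ?_
        simp only [Equiv.subLeft_apply]
        have e1 : i - (i + j - k) = k - j := by ring
        have e2 : i + j - k - j = i - k := by ring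
        rw [e1, e2]; ring
      rw [h1, ← Finset.sum_add_distrib]
      exact Finset.sum_eq_zero fun k _ => by ring
    · rw [Fintype.sum_sum_type]
      change ∑ k, (- b (i - k)) * (- b (j - k)) + ∑ k, a (i - k) * a (j - k) = _
      rw [← Finset.sum_add_distrib]
      have h1 := hP (j - i)
      rw [← Equiv.sum_comp (Equiv.subLeft i)] at h1
      have h2 : ∀ k : ZMod m, a ((Equiv.subLeft i) k) * a ((Equiv.subLeft i) k + (j - i))
          + b ((Equiv.subLeft i) k) * b ((Equiv.subLeft i) k + (j - i))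
          = (- b (i - k)) * (- b (j - k)) + a (i - k) * a (j - k) := by
        intro k
        simp only [Equiv.subLeft_apply]
        have : i - k + (j - i) = j - k := by ring
        rw [this]; ring
      rw [Finset.sum_congr rfl fun k _ => h2 k] at h1
      rw [h1]
      by_cases h : i = j
      · rw [if_pos (by rw [h, sub_self]), if_pos (by rw [h])]
      · rw [if_neg (sub_ne_zero.2 (Ne.symm h)), if_neg (fun h' => h (Sum.inr.inj h'))]
  have rA : ∀ i, ∑ k, a (k - i) = A := fun i => Equiv.sum_comp (Equiv.subRight i) a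
  have rB : ∀ i, ∑ k, b (k - i) = B := fun i => Equiv.sum_comp (Equiv.subRight i) b
  have rA' : ∀ i, ∑ k, a (i - k) = A := fun i => Equiv.sum_comp (Equiv.subLeft i) a
  have rB' : ∀ i, ∑ k, b (i - k) = B := fun i => Equiv.sum_comp (Equiv.subLeft i) b
  have hrow0 : ∀ i, ∑ k, H i k * (Sum.elim (fun _ : ZMod m => (1 : ℤ)) (fun _ : ZMod m => 1)) k
      = Sum.elim (fun _ : ZMod m => A + B) (fun _ : ZMod m => A - B) i := by
    rintro (i | i)
    · rw [Fintype.sum_sum_type]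
      change ∑ k, a (k - i) * 1 + ∑ k, b (k - i) * 1 = A + B
      simp only [mul_one, rA, rB]
    · rw [Fintype.sum_sum_type]
      change ∑ k, (- b (i - k)) * 1 + ∑ k, a (i - k) * 1 = A - B
      simp only [mul_one, Finset.sum_neg_distrib, rA', rB']; ring
  have hrow1 : ∀ i, ∑ k, H i k * (Sum.elim (fun _ : ZMod m => (1 : ℤ)) (fun _ : ZMod m => -1)) k
      = Sum.elim (fun _ : ZMod m => A - B) (fun _ : ZMod m => -A - B) i := by
    rintro (i | i)
    · rw [Fintype.sum_sum_type]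
      change ∑ k, a (k - i) * 1 + ∑ k, b (k - i) * (-1) = A - B
      simp only [mul_one, mul_neg, Finset.sum_neg_distrib, rA, rB]; ring
    · rw [Fintype.sum_sum_type]
      change ∑ k, (- b (i - k)) * 1 + ∑ k, a (i - k) * (-1) = -A - B
      simp only [mul_one, mul_neg, Finset.sum_neg_distrib, rA', rB']; ring
  refine ⟨ZMod m ⊕ ZMod m, inferInstance, inferInstance, Matrix.of fun i j => ((H i j : ℤ) : ℝ),
    ![Sum.elim (fun _ => 1) (fun _ => 1), Sum.elim (fun _ => 1) (fun _ => -1)],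
    ![Sum.elim (fun _ => 1) (fun _ => 1), Sum.elim (fun _ => 1) (fun _ => -1)],
    (A : ℝ), (B : ℝ), ?_, ?_, ?_, ?_, ?_, ?_, ?_, ?_, ?_⟩
  · rw [Fintype.card_sum, ZMod.card]; ring
  · intro i j; exact pm_cast (hHpm i j)
  · ext i j
    rw [Matrix.mul_apply, Matrix.smul_apply, Matrix.one_apply, smul_eq_mul]
    simp only [Matrix.transpose_apply, Matrix.of_apply]
    have h1 := hHH i j
    have h2 : ∑ k, ((H i k : ℤ) : ℝ) * ((H j k : ℤ) : ℝ) = (((if i = j then 2 * (m : ℤ) else 0) : ℤ) : ℝ) := by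
      rw [← h1]; push_cast; rfl
    rw [h2]
    by_cases h : i = j
    · rw [if_pos h, if_pos h]; push_cast; ring
    · rw [if_neg h, if_neg h]; simp
  · intro k i
    fin_cases k <;> rcases i with i | i <;> simp
  · intro k i
    fin_cases k <;> rcases i with i | i <;> simp
  · push_cast
    exact_mod_cast hAB
  · intro i
    have h1 := hrow0 i
    have h2 : ∑ k, ((H i k : ℤ) : ℝ) * (((Sum.elim (fun _ : ZMod m => (1 : ℤ)) (fun _ : ZMod m => 1)) k : ℤ) : ℝ)
        = ((Sum.elim (fun _ : ZMod m => A + B) (fun _ : ZMod m => A - B) i : ℤ) : ℝ) := by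
      rw [← h1]; push_cast; rfl
    have h3 : ∀ k, (((Sum.elim (fun _ : ZMod m => (1 : ℤ)) (fun _ : ZMod m => 1)) k : ℤ) : ℝ)
        = (Sum.elim (fun _ : ZMod m => (1 : ℝ)) (fun _ : ZMod m => 1)) k := by
      rintro (k | k) <;> simp
    simp only [h3] at h2
    change ∑ k, ((H i k : ℤ) : ℝ) * (Sum.elim (fun _ : ZMod m => (1 : ℝ)) (fun _ : ZMod m => 1)) k = _
    rw [h2]
    rcases i with i | i <;> simp <;> ring
  · intro i
    have h1 := hrow1 i
    have h2 : ∑ k, ((H i k : ℤ) : ℝ) * (((Sum.elim (fun _ : ZMod m => (1 : ℤ)) (fun _ : ZMod m => -1)) k : ℤ) : ℝ)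
        = ((Sum.elim (fun _ : ZMod m => A - B) (fun _ : ZMod m => -A - B) i : ℤ) : ℝ) := by
      rw [← h1]; push_cast; rfl
    have h3 : ∀ k, (((Sum.elim (fun _ : ZMod m => (1 : ℤ)) (fun _ : ZMod m => -1)) k : ℤ) : ℝ)
        = (Sum.elim (fun _ : ZMod m => (1 : ℝ)) (fun _ : ZMod m => -1)) k := by
      rintro (k | k) <;> simp
    simp only [h3] at h2
    change ∑ k, ((H i k : ℤ) : ℝ) * (Sum.elim (fun _ : ZMod m => (1 : ℝ)) (fun _ : ZMod m => -1)) k = _
    rw [h2]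
    rcases i with i | i <;> simp <;> ring
  · rw [Fintype.sum_sum_type]
    simp

def seq (L : List ℤ) (m : ℕ) (i : ZMod m) : ℤ := L.getD i.val 0

theorem pgolay10 : PGolay 10 (seq [1,1,-1,1,-1,1,-1,-1,1,1] 10) (seq [1,1,-1,1,1,1,1,1,-1,-1] 10) := by
  refine ⟨?_, ?_, ?_⟩ <;> decide +kernel

theorem pgolay26 : PGolay 26
    (seq [1,1,1,-1,-1,1,1,1,-1,1,-1,-1,-1,-1,-1,1,-1,1,1,-1,-1,1,-1,-1,-1,-1] 26)
    (seq [-1,-1,-1,1,1,-1,-1,-1,1,-1,1,1,-1,1,-1,1,-1,1,1,-1,-1,1,-1,-1,-1,-1] 26) := by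
  refine ⟨?_, ?_, ?_⟩ <;> decide +kernel

theorem twPair_pow {M : ℕ} (hM : TwPair M) : ∀ k, 1 ≤ k → TwPair (M ^ k) := by
  intro k hk
  induction k, hk using Nat.le_induction with
  | base => rw [pow_one]; exact hM
  | succ k _ ih => rw [pow_succ]; exact ih.mul hM

theorem twPair_all (a b c : ℕ) (h : 1 ≤ a + b + c) : TwPair (2 ^ a * 20 ^ b * 52 ^ c) := by
  have h20 : TwPair 20 := pgolay_twPair 10 _ _ pgolay10
  have h52 : TwPair 52 := pgolay_twPair 26 _ _ pgolay26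
  rcases Nat.eq_zero_or_pos a with rfl | ha <;> rcases Nat.eq_zero_or_pos b with rfl | hb <;>
    rcases Nat.eq_zero_or_pos c with rfl | hc
  · omega
  · simpa using twPair_pow h52 c hc
  · simpa using twPair_pow h20 b hb
  · simpa using (twPair_pow h20 b hb).mul (twPair_pow h52 c hc)
  · simpa using twPair_pow twPair_two a ha
  · simpa using (twPair_pow twPair_two a ha).mul (twPair_pow h52 c hc)
  · simpa using (twPair_pow twPair_two a ha).mul (twPair_pow h20 b hb)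
  · exact ((twPair_pow twPair_two a ha).mul (twPair_pow h20 b hb)).mul (twPair_pow h52 c hc)

end Pool.Agent.Lib_helper10.GOL
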